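import Mathlib
import Pool.Agent.H6.SC.Fin

set_option autoImplicit false

open MvPolynomial Pool.Agent.H74.Secant

namespace Pool.Agent.Results.MP_6429ad_ag.ProductsIffKLeTwo

universe u

/-- Over every algebraically closed field of characteristic zero: (1) for every `k ≥ 1`, the ideals of the secant
varieties `Σ_k(C_G)` are generated by products of linear forms for all graphs `G` as in the problem and all
labellings if and only if `k ≤ 2`; (2) for every `k ≥ 4` and every `n` there are a graph `G` with at least `n`
vertices and genus two and a labelling such that the ideal of `Σ_k(C_G)` is not generated by products of linear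
forms. -/
theorem result (K : Type u) [Field K] [IsAlgClosed K] [CharZero K] :
    (∀ k : ℕ, 1 ≤ k →
      ((∀ (V : Type) [Fintype V] (G : SimpleGraph V) [DecidableRel G.Adj] (N : ℕ) (lab : Sym2 V → Label N),
        IsAdmissible G → IsLabelling G lab →
          GeneratedByProducts (vanishingIdeal K (secantVariety k (graphCurve G lab K)))) ↔ k ≤ 2)) ∧
    ∀ k n : ℕ, 4 ≤ k →
      ∃ (V : Type) (_ : Fintype V) (G : SimpleGraph V) (_ : DecidableRel G.Adj) (N : ℕ) (lab : Sym2 V → Label N),
        IsAdmissible G ∧ IsLabelling G lab ∧ G.edgeFinset.card = Fintype.card V + 1 ∧ n ≤ Fintype.card V ∧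
          ¬ GeneratedByProducts (vanishingIdeal K (secantVariety k (graphCurve G lab K))) :=
  Pool.Agent.H6.SC.main K

end Pool.Agent.Results.MP_6429ad_ag.ProductsIffKLeTwo
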